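import Pool.Agent.Helper77.PPB.Goals2

/-!
Project PPB (MP_fc6b1e_nt), packet B_KU5.
-/

namespace Pool.Agent.Helper98.PPB

open NumberField Polynomial Module IsDedekindDomain
open Pool.Agent.Helper38.FD (Chr CutsOut)

/-- Packet B_KU5. -/
theorem b_ku5 : Pool.Agent.Helper77.PPB.B_KU5 := by
  intro p _ K _ _ E₁ J M₂ _ _ hM ψ₀ hJ hl ε hε hεE εk a₀ s₀ hs hK σ hσ hσ1 c hc hprod
  obtain ⟨l, hl⟩ := hl
  have hp : p.Prime := Fact.out
  set g : AlgebraicClosure K ≃ₐ[K] AlgebraicClosure K :=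
    AlgEquiv.liftNormal σ (AlgebraicClosure K) with hg
  have hgM : ∀ x : M₂, g (x : AlgebraicClosure K) = ((σ x : M₂) : AlgebraicClosure K) :=
    fun x => AlgEquiv.liftNormal_commutes σ (AlgebraicClosure K) x
  have hgpow : ∀ (n : ℕ) (x : M₂),
      (g ^ n) (x : AlgebraicClosure K) = (((σ ^ n) x : M₂) : AlgebraicClosure K) := by
    intro n
    induction n with
    | zero => intro x; simp
    | succ n ih =>
      intro x
      rw [pow_succ, pow_succ, AlgEquiv.mul_apply, AlgEquiv.mul_apply, hgM, ih]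
  have hεΩ : IsPrimitiveRoot (ε : AlgebraicClosure K) p :=
    hε.map_of_injective (f := algebraMap M₂ (AlgebraicClosure K)) (algebraMap M₂ _).injective
  have ha0 : ((a₀ : M₂) : AlgebraicClosure K) ≠ 0 := by
    intro h
    exact a₀.ne_zero (Subtype.ext h)
  have hs0 : s₀ ≠ 0 := by
    rintro rfl
    rw [zero_pow hp.ne_zero] at hs
    exact ha0 hs.symm
  have hc0 : (c : M₂) ≠ 0 := by
    rintro rfl
    rw [zero_pow hp.ne_zero, mul_zero] at hc
    exact a₀.ne_zero ((map_eq_zero σ).1 hc)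
  have hc0' : (c : AlgebraicClosure K) ≠ 0 := fun h => hc0 (Subtype.ext h)
  -- the image of `s₀`
  have h1 : (g s₀ / (s₀ * c)) ^ p = 1 := by
    have h2 : (g s₀) ^ p = (s₀ * c) ^ p := by
      rw [← map_pow, hs, hgM, hc, mul_pow, hs]
      rfl
    rw [div_pow, h2, div_self]
    exact pow_ne_zero _ (mul_ne_zero hs0 hc0')
  obtain ⟨j, -, hj⟩ := hεΩ.eq_pow_of_pow_eq_one h1
  have hgs : g s₀ = s₀ * c * (ε : AlgebraicClosure K) ^ j := by
    rw [hj, mul_div_cancel₀ _ (mul_ne_zero hs0 hc0')]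
  have hgε : g (ε : AlgebraicClosure K) = ε := by
    rw [hgM, hσ ε hεE]
  have hpow : ∀ n : ℕ, (g ^ n) s₀ =
      s₀ * ((∏ i ∈ Finset.range n, (σ ^ i) c : M₂) : AlgebraicClosure K) *
        (ε : AlgebraicClosure K) ^ (j * n) := by
    intro n
    induction n with
    | zero => simp
    | succ n ih =>
      rw [pow_succ', AlgEquiv.mul_apply, ih, map_mul, map_mul, map_pow, hgε, hgs, hgM,
        Finset.prod_range_succ', map_prod]
      have h3 : ∀ i, σ ((σ ^ i) c) = (σ ^ (i + 1)) c := by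
        intro i
        rw [pow_succ', AlgEquiv.mul_apply]
      simp only [h3, pow_zero, AlgEquiv.one_apply]
      push_cast
      ring
  -- orders
  have hfin : 0 < orderOf σ := orderOf_pos σ
  set x := ψ₀ g with hx
  have hord : orderOf (x ^ p) = orderOf σ := by
    rw [orderOf_eq_orderOf_iff]
    intro r
    have e1 : (x ^ p) ^ r = (ψ₀ ^ p) (g ^ r) := by
      rw [MonoidHom.pow_apply, map_pow, ← pow_mul, ← pow_mul, mul_comm]
    rw [e1, hJ (g ^ r)]
    constructor
    · intro h4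
      have h5 : g ^ r ∈ M₂.fixingSubgroup := by
        rw [hM, IntermediateField.fixingSubgroup_sup, Subgroup.mem_inf]
        constructor
        · rw [IntermediateField.mem_fixingSubgroup_iff]
          intro y hy
          have hyM : y ∈ M₂ := by
            rw [hM]; exact (le_sup_left : E₁ ≤ E₁ ⊔ J) hy
          have h6 := hgpow r ⟨y, hyM⟩
          change (g ^ r) y = _ at h6
          have h7 : ∀ n : ℕ, (σ ^ n) ⟨y, hyM⟩ = ⟨y, hyM⟩ := by
            intro n
            induction n with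
            | zero => simp
            | succ n ih => rw [pow_succ, AlgEquiv.mul_apply, hσ ⟨y, hyM⟩ hy, ih]
          rw [h6, h7]
        · rw [IntermediateField.mem_fixingSubgroup_iff]
          exact h4
      rw [IntermediateField.mem_fixingSubgroup_iff] at h5
      ext y
      rw [← hgpow, h5 y y.2]
      rfl
    · intro h4 y hy
      have hyM : y ∈ M₂ := by
        rw [hM]; exact (le_sup_right : J ≤ E₁ ⊔ J) hy
      have h6 := hgpow r ⟨y, hyM⟩
      change (g ^ r) y = _ at h6
      rw [h6, h4]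
      rfl
  have hxp : x ^ p ≠ 1 := by
    intro h
    rw [h, orderOf_one] at hord
    exact hσ1 (orderOf_eq_one_iff.1 hord.symm)
  have hxl : x ^ p ^ l = 1 := by
    rw [hx, ← MonoidHom.pow_apply, hl, MonoidHom.one_apply]
  obtain ⟨b, -, hb⟩ := (Nat.dvd_prime_pow hp).1 (orderOf_dvd_of_pow_eq_one hxl)
  obtain ⟨b, rfl⟩ : ∃ b', b = b' + 2 := by
    rcases b with _ | _ | b
    · exfalso
      apply hxp
      rw [pow_zero] at hb
      rw [orderOf_eq_one_iff.1 hb, one_pow]
    · exfalso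
      apply hxp
      have := pow_orderOf_eq_one x
      rw [hb] at this
      simpa using this
    · exact ⟨b, rfl⟩
  have hn : orderOf σ = p ^ (b + 1) := by
    rw [← hord, orderOf_pow_of_dvd hp.ne_zero, hb]
    · rw [pow_succ, Nat.mul_div_cancel _ hp.pos]
    · rw [hb]
      exact dvd_pow_self p (by omega)
  have hfix : (g ^ orderOf σ) s₀ = (ε : AlgebraicClosure K) ^ 0 * s₀ := by
    rw [hpow, hprod, hn, pow_succ, ← mul_assoc, pow_mul _ (j * p ^ b) p, ← pow_mul,
      mul_comm (j * p ^ b) p, pow_mul, hεΩ.pow_eq_one, one_pow, pow_zero]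
    simp
  have hM2 : ∀ y ∈ M₂, (g ^ orderOf σ) y = y := by
    intro y hy
    have h6 := hgpow (orderOf σ) ⟨y, hy⟩
    change (g ^ orderOf σ) y = _ at h6
    rw [h6, pow_orderOf_eq_one]
    rfl
  have h8 := hK (g ^ orderOf σ) hM2 0 hfix
  rw [pow_zero, map_pow] at h8
  have h9 := orderOf_dvd_of_pow_eq_one h8
  rw [← hx, hb, hn] at h9
  have h10 := Nat.le_of_dvd (pow_pos hp.pos _) h9
  have h11 : p ^ (b + 1) < p ^ (b + 2) := Nat.pow_lt_pow_right hp.one_lt (by omega)
  omega

end Pool.Agent.Helper98.PPB
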